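import Mathlib
import Pool.Agent.Lib.MP_00fb6a_lc.CH

/-!
The quotient Borel structures of any two non-smooth countable Borel equivalence relations cannot
be told apart by the Ehrenfeucht-Fraisse game of length the first uncountable ordinal.
-/

set_option autoImplicit false

namespace Pool.Agent.Results.MP_00fb6a_lc.EFGame

/-- `m` is the sequence of moves of the first player (at each stage below `ω₁` a member of one of
the two quotient Borel structures), `S m i` is the pair of sets on the board at stage `i` once the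
second player has answered. -/
theorem result (X Y : Type) [MeasurableSpace X] [StandardBorelSpace X]
    [MeasurableSpace Y] [StandardBorelSpace Y] (E : Setoid X) (F : Setoid Y)
    (hE : MeasurableSet {p : X × X | E.r p.1 p.2}) (hF : MeasurableSet {p : Y × Y | F.r p.1 p.2})
    (hcE : ∀ x : X, {y : X | E.r x y}.Countable) (hcF : ∀ y : Y, {z : Y | F.r y z}.Countable)
    (hnE : ¬ ∃ f : X → ℝ, Measurable f ∧ ∀ x y, E.r x y ↔ f x = f y)
    (hnF : ¬ ∃ f : Y → ℝ, Measurable f ∧ ∀ x y, F.r x y ↔ f x = f y) :
    ∃ S : ((Ordinal.omega.{0} 1).ToType → {A : Set (Quotient E) // MeasurableSet A} ⊕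
          {B : Set (Quotient F) // MeasurableSet B}) →
        (Ordinal.omega.{0} 1).ToType →
          {A : Set (Quotient E) // MeasurableSet A} × {B : Set (Quotient F) // MeasurableSet B},
      (∀ m m' i, (∀ k ≤ i, m k = m' k) → S m i = S m' i) ∧
      (∀ m i A, m i = Sum.inl A → (S m i).1 = A) ∧
      (∀ m i B, m i = Sum.inr B → (S m i).2 = B) ∧
      ∀ m (J : Set (Ordinal.omega.{0} 1).ToType), J.Countable →
        (∀ a : Quotient E, ∃ b : Quotient F, ∀ i ∈ J, (a ∈ (S m i).1.1 ↔ b ∈ (S m i).2.1)) ∧
        (∀ b : Quotient F, ∃ a : Quotient E, ∀ i ∈ J, (a ∈ (S m i).1.1 ↔ b ∈ (S m i).2.1)) :=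
  Pool.Agent.Lib.MP_00fb6a_lc.exists_strategy E F hE hF hcE hcF hnE hnF
    Pool.Agent.Lib.MP_00fb6a_lc.countable_Iio_omega_one

end Pool.Agent.Results.MP_00fb6a_lc.EFGame
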