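import Mathlib
import Pool.Agent.Lib.MP_053343_lc.Defs
import Pool.Agent.Lib.MP_00fb6a_lc.ModelDefs
import Pool.Agent.Lib.MP_00fb6a_lc.Model
import Pool.Agent.Lib.MP_00fb6a_lc.Pos.Defs
import Pool.Agent.Lib.MP_00fb6a_lc.Pos.Model

/-!
The statement of the problem holds in one transitive model of ZFC and fails in another.
-/

set_option autoImplicit false

namespace Pool.Agent.Results.MP_00fb6a_lc.Independent

open Pool.Agent.Lib.MP_053343_lc Pool.Agent.Lib.MP_00fb6a_lc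

theorem result :
    (∃ M : ZFSet.{0}, ModelZF M ∧ ChoiceIn M ∧ Q1In M) ∧
      (∃ M : ZFSet.{0}, ModelZF M ∧ ChoiceIn M ∧ ¬ Q1In M) := by
  refine ⟨Pos.exists_pos_model, ?_⟩
  obtain ⟨M, h1, h2, E, mE, F, mF, cE, cF, q, n⟩ := exists_model
  refine ⟨M, h1, h2, fun h => n ?_⟩
  have d : ∀ E, CBERIn M E → dom M E = cantor M := fun E c => ZFSet.ext fun x => by
    rw [dom, ZFSet.mem_sep]
    exact and_iff_left_of_imp (c.2.1 x)
  have := (h E mE F mF ⟨cE.1, cE.2.2⟩ ⟨cF.1, cF.2.2⟩).2 (by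
    unfold QIso quo
    rw [d E cE, d F cF]
    exact q)
  unfold Red BorelMap at this
  rw [d E cE, d F cF] at this
  obtain ⟨⟨g, ⟨a1, a2, a3⟩, a4⟩, ⟨g', ⟨b1, b2, b3⟩, b4⟩⟩ := this
  exact ⟨⟨g, a1, a2, a3, a4⟩, ⟨g', b1, b2, b3, b4⟩⟩

end Pool.Agent.Results.MP_00fb6a_lc.Independent
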